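import Pool.Agent.Q123.OE.Qf

set_option autoImplicit false

/-!
# Project OE, job FRQ: the frequencies of the error are the zeros
-/

namespace Pool.Agent.Q123.OE

open Complex MeasureTheory Filter Topology Set
open Pool.Agent.Q286.BD (cl mz difR JR)
open Pool.Agent.Q260.OE

/-- the contribution of the zero `g` to the transform of the model -/
noncomputable def ag (g L t : ℝ) : ℂ := FF (mz (cl g)) ((t - g) * L) / cl g

/-- the limit belonging to the zero `g` -/
noncomputable def yg (α β g : ℝ) : ℝ := if α < g ∧ g < β then (mz (cl g) : ℝ) ^ 2 / (1 / 4 + g ^ 2) else 0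

lemma yg_nonneg (α β g : ℝ) : 0 ≤ yg α β g := by
  unfold yg
  split_ifs <;> positivity

lemma yg_le (α β g : ℝ) : yg α β g ≤ (mz (cl g) : ℝ) ^ 2 / (1 / 4 + g ^ 2) := by
  unfold yg
  split_ifs
  · exact le_rfl
  · positivity

lemma ag_cont (h : S_FFB) (g L : ℝ) : Continuous (ag g L) := by
  unfold ag
  exact ((h _).1.comp (by fun_prop)).div_const _

lemma diag (h : S_FFB) {α β : ℝ} (hab : α < β) {g : ℝ} (h1 : g ≠ α) (h2 : g ≠ β) :
    Tendsto (fun L : ℝ => ∫ t in α..β, L / (2 * Real.pi) * ‖ag g L t‖ ^ 2) atTop (𝓝 (yg α β g)) := by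
  obtain ⟨hc, -, hi, hm⟩ := h (mz (cl g))
  set N : ℝ → ℝ := fun v => ‖FF (mz (cl g)) v‖ ^ 2 with hN
  have hg0 : (0 : ℝ) < 1 / 4 + g ^ 2 := by positivity
  -- the limit of the integrals of `N`
  have key : Tendsto (fun L : ℝ => ∫ v in (L * α - g * L)..(L * β - g * L), N v) atTop
      (𝓝 (if α < g ∧ g < β then ∫ v, N v else 0)) := by
    have lp : ∀ x : ℝ, g < x → Tendsto (fun L : ℝ => L * x - g * L) atTop atTop := by
      intro x hx
      have : Tendsto (fun L : ℝ => L * (x - g)) atTop atTop := tendsto_id.atTop_mul_const (by linarith)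
      exact this.congr fun L => by ring
    have lm : ∀ x : ℝ, x < g → Tendsto (fun L : ℝ => L * x - g * L) atTop atBot := by
      intro x hx
      have : Tendsto (fun L : ℝ => L * (x - g)) atTop atBot :=
        (tendsto_id.atTop_mul_const_of_neg (by linarith))
      exact this.congr fun L => by ring
    rcases lt_or_gt_of_ne h1 with hga | hga
    · rw [if_neg (by intro hh; linarith [hh.1])]
      have a1 := intervalIntegral_tendsto_integral_Ioi 0 hi.integrableOn (lp α hga)
      have a2 := intervalIntegral_tendsto_integral_Ioi 0 hi.integrableOn (lp β (by linarith))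
      have a3 := a2.sub a1
      rw [sub_self] at a3
      refine a3.congr fun L => ?_
      exact intervalIntegral.integral_interval_sub_left hi.intervalIntegrable hi.intervalIntegrable
    · rcases lt_or_gt_of_ne h2 with hgb | hgb
      · rw [if_pos ⟨hga, hgb⟩]
        exact intervalIntegral_tendsto_integral hi (lm α hga) (lp β hgb)
      · rw [if_neg (by intro hh; linarith [hh.2])]
        have a1 := intervalIntegral_tendsto_integral_Iic 0 hi.integrableOn (lm α (by linarith))
        have a2 := intervalIntegral_tendsto_integral_Iic 0 hi.integrableOn (lm β hgb)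
        have a3 := a1.sub a2
        rw [sub_self] at a3
        refine a3.congr fun L => ?_
        have c1 := intervalIntegral.integral_add_adjacent_intervals
          (hi.intervalIntegrable (a := L * α - g * L) (b := L * β - g * L)) (hi.intervalIntegrable (b := 0))
        linarith
  have key2 := key.const_mul (1 / (2 * Real.pi) / (1 / 4 + g ^ 2))
  have e : 1 / (2 * Real.pi) / (1 / 4 + g ^ 2) * (if α < g ∧ g < β then ∫ v, N v else 0) = yg α β g := by
    unfold yg
    split_ifs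
    · rw [← hm]; field_simp
    · simp
  rw [e] at key2
  refine key2.congr' ?_
  filter_upwards [eventually_gt_atTop 0] with L hL
  have e2 : ∀ t, L / (2 * Real.pi) * ‖ag g L t‖ ^ 2 = L * (1 / (2 * Real.pi) / (1 / 4 + g ^ 2)) * N (L * t - g * L) := by
    intro t
    unfold ag
    rw [norm_div, div_pow, Pool.Agent.Q286.BD.norm_cl_sq]
    have : (t - g) * L = L * t - g * L := by ring
    rw [this, hN]
    ring
  simp only [e2]
  rw [intervalIntegral.integral_const_mul, intervalIntegral.integral_comp_mul_sub _ hL.ne', smul_eq_mul]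
  field_simp

lemma ag_bound (h : S_FFB) (g : ℝ) : ∃ K : ℝ, 0 < K ∧ ∀ L t : ℝ, 0 < L → ‖ag g L t‖ ≤ K / (1 + |t - g| * L) := by
  obtain ⟨-, ⟨C, hC, hb⟩, -⟩ := h (mz (cl g))
  have hcl : 0 < ‖cl g‖ := norm_pos_iff.mpr (cl_ne g)
  refine ⟨C / ‖cl g‖, by positivity, fun L t hL => ?_⟩
  unfold ag
  rw [norm_div]
  have := hb ((t - g) * L)
  rw [abs_mul, abs_of_pos hL] at this
  have e : C / ‖cl g‖ / (1 + |t - g| * L) = C / (1 + |t - g| * L) / ‖cl g‖ := by
    rw [div_div, div_div, mul_comm]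
  rw [e]
  exact div_le_div_of_nonneg_right this hcl.le

lemma cross (h : S_FFB) (α β : ℝ) {g g' : ℝ} (hne : g ≠ g') :
    Tendsto (fun L : ℝ => ∫ t in α..β, L / (2 * Real.pi) * (ag g L t * (starRingEnd ℂ) (ag g' L t)).re) atTop (𝓝 0) := by
  obtain ⟨K, hK, hb⟩ := ag_bound h g
  obtain ⟨K', hK', hb'⟩ := ag_bound h g'
  set d : ℝ := |g - g'| with hd
  have hdp : 0 < d := abs_pos.mpr (sub_ne_zero.mpr hne)
  have hpt : ∀ L t : ℝ, 0 < L → ‖L / (2 * Real.pi) * (ag g L t * (starRingEnd ℂ) (ag g' L t)).re‖ ≤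
      K * K' * (L / ((1 + |t - g| * L) * (1 + |t - g'| * L))) := by
    intro L t hL
    rw [norm_mul, Real.norm_eq_abs, Real.norm_eq_abs, abs_of_nonneg (by positivity)]
    have n1 : |(ag g L t * (starRingEnd ℂ) (ag g' L t)).re| ≤ ‖ag g L t‖ * ‖ag g' L t‖ := by
      refine (Complex.abs_re_le_norm _).trans ?_
      rw [norm_mul, RCLike.norm_conj]
    have n2 : ‖ag g L t‖ * ‖ag g' L t‖ ≤ K / (1 + |t - g| * L) * (K' / (1 + |t - g'| * L)) :=
      mul_le_mul (hb L t hL) (hb' L t hL) (norm_nonneg _) (by positivity)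
    have n3 : L / (2 * Real.pi) ≤ L := by
      refine div_le_self hL.le ?_
      have := Real.pi_gt_three
      linarith
    calc _ ≤ L * (K / (1 + |t - g| * L) * (K' / (1 + |t - g'| * L))) :=
          mul_le_mul n3 (n1.trans n2) (abs_nonneg _) hL.le
      _ = _ := by
        have p1 : 0 < 1 + |t - g| * L := by positivity
        have p2 : 0 < 1 + |t - g'| * L := by positivity
        field_simp
  have h0 : (0 : ℝ) = ∫ t in α..β, (0 : ℝ) := by simp
  rw [h0]
  refine intervalIntegral.tendsto_integral_filter_of_dominated_convergence (fun _ => K * K' * (1 / d)) ?_ ?_ ?_ ?_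
  · refine Eventually.of_forall fun L => ?_
    refine Continuous.aestronglyMeasurable ?_
    refine continuous_const.mul (Complex.continuous_re.comp ?_)
    exact (ag_cont h g L).mul (Complex.continuous_conj.comp (ag_cont h g' L))
  · filter_upwards [eventually_gt_atTop 0] with L hL
    refine ae_of_all _ fun t _ => (hpt L t hL).trans ?_
    refine mul_le_mul_of_nonneg_left ?_ (by positivity)
    have p1 : 0 ≤ |t - g| * L := by positivity
    have p2 : 0 ≤ |t - g'| * L := by positivity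
    have p3 : d ≤ |t - g| + |t - g'| := by
      have := abs_sub_le g t g'
      rw [abs_sub_comm g t] at this
      exact this
    rw [div_le_div_iff₀ (by positivity) hdp]
    nlinarith [mul_nonneg p1 p2]
  · exact intervalIntegrable_const
  · have hfin : ({g, g'} : Set ℝ).Finite := Set.toFinite _
    have hae : ∀ᵐ t : ℝ, t ∉ ({g, g'} : Set ℝ) := hfin.measure_zero volume |> measure_eq_zero_iff_ae_notMem.mp
    filter_upwards [hae] with t ht _
    have t1 : 0 < |t - g| := abs_pos.mpr (sub_ne_zero.mpr fun e => ht (by simp [e]))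
    have t2 : 0 < |t - g'| := abs_pos.mpr (sub_ne_zero.mpr fun e => ht (by simp [e]))
    have hl : Tendsto (fun L : ℝ => K * K' / (|t - g| * |t - g'|) * L⁻¹) atTop (𝓝 0) := by
      have := tendsto_inv_atTop_zero (𝕜 := ℝ) |>.const_mul (K * K' / (|t - g| * |t - g'|))
      rwa [mul_zero] at this
    refine squeeze_zero_norm' ?_ hl
    filter_upwards [eventually_gt_atTop 0] with L hL
    refine (hpt L t hL).trans ?_
    have : L / ((1 + |t - g| * L) * (1 + |t - g'| * L)) ≤ L / ((|t - g| * L) * (|t - g'| * L)) := by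
      gcongr <;> linarith
    calc _ ≤ K * K' * (L / ((|t - g| * L) * (|t - g'| * L))) := by gcongr
      _ = _ := by field_simp

/-- the transform of the model -/
noncomputable def Mj (S : Finset ℝ) (L t : ℝ) : ℂ := ∑ g ∈ S, ag g L t

lemma Mj_cont (h : S_FFB) (S : Finset ℝ) (L : ℝ) : Continuous (Mj S L) :=
  continuous_finsetSum _ fun g _ => ag_cont h g L

lemma Mj_sq (S : Finset ℝ) (L t : ℝ) :
    ‖Mj S L t‖ ^ 2 = ∑ g ∈ S, ∑ g' ∈ S, (ag g L t * (starRingEnd ℂ) (ag g' L t)).re := by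
  have e : ((‖Mj S L t‖ ^ 2 : ℝ) : ℂ) = Mj S L t * (starRingEnd ℂ) (Mj S L t) := by
    rw [Complex.mul_conj, Complex.normSq_eq_norm_sq]
  have e2 := congrArg Complex.re e
  rw [Complex.ofReal_re] at e2
  rw [e2]
  unfold Mj
  rw [map_sum, Finset.sum_mul_sum, Complex.re_sum]
  refine Finset.sum_congr rfl fun g _ => ?_
  rw [Complex.re_sum]

lemma model (h : S_FFB) {α β : ℝ} (hab : α < β) (S : Finset ℝ) (h1 : α ∉ S) (h2 : β ∉ S) :
    Tendsto (fun L : ℝ => L * (1 / (2 * Real.pi) * ∫ t in α..β, ‖Mj S L t‖ ^ 2)) atTop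
      (𝓝 (∑ g ∈ S, yg α β g)) := by
  have hs : Tendsto (fun L : ℝ => ∑ g ∈ S, ∑ g' ∈ S,
      ∫ t in α..β, L / (2 * Real.pi) * (ag g L t * (starRingEnd ℂ) (ag g' L t)).re) atTop
      (𝓝 (∑ g ∈ S, ∑ g' ∈ S, if g = g' then yg α β g else 0)) := by
    refine tendsto_finsetSum _ fun g hg => tendsto_finsetSum _ fun g' hg' => ?_
    by_cases hgg : g = g'
    · subst hgg
      rw [if_pos rfl]
      refine (diag h hab (g := g) (fun e => h1 (e ▸ hg)) (fun e => h2 (e ▸ hg))).congr fun L => ?_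
      refine intervalIntegral.integral_congr fun t _ => ?_
      show L / (2 * Real.pi) * ‖ag g L t‖ ^ 2 = _
      rw [Complex.mul_conj, Complex.ofReal_re, Complex.normSq_eq_norm_sq]
    · rw [if_neg hgg]
      exact cross h α β hgg
  have e : ∑ g ∈ S, ∑ g' ∈ S, (if g = g' then yg α β g else 0) = ∑ g ∈ S, yg α β g := by
    refine Finset.sum_congr rfl fun g hg => ?_
    rw [Finset.sum_ite_eq, if_pos hg]
  rw [e] at hs
  refine hs.congr fun L => ?_
  have hint : ∀ g g' : ℝ, IntervalIntegrable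
      (fun t => L / (2 * Real.pi) * (ag g L t * (starRingEnd ℂ) (ag g' L t)).re) volume α β := by
    intro g g'
    refine Continuous.intervalIntegrable ?_ _ _
    refine continuous_const.mul (Complex.continuous_re.comp ?_)
    exact (ag_cont h g L).mul (Complex.continuous_conj.comp (ag_cont h g' L))
  have e3 : ∀ g ∈ S, ∑ g' ∈ S, ∫ t in α..β, L / (2 * Real.pi) * (ag g L t * (starRingEnd ℂ) (ag g' L t)).re =
      ∫ t in α..β, ∑ g' ∈ S, L / (2 * Real.pi) * (ag g L t * (starRingEnd ℂ) (ag g' L t)).re := fun g _ =>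
    (intervalIntegral.integral_finsetSum fun g' _ => hint g g').symm
  rw [Finset.sum_congr rfl e3, ← intervalIntegral.integral_finsetSum]
  · rw [← mul_assoc, ← intervalIntegral.integral_const_mul]
    refine intervalIntegral.integral_congr fun t _ => ?_
    show ∑ g ∈ S, ∑ g' ∈ S, L / (2 * Real.pi) * (ag g L t * (starRingEnd ℂ) (ag g' L t)).re = L * (1 / (2 * Real.pi)) * ‖Mj S L t‖ ^ 2
    rw [Mj_sq]
    simp only [← Finset.mul_sum]
    ring
  · intro g _
    have := IntervalIntegrable.sum S (f := fun g' t => L / (2 * Real.pi) * (ag g L t * (starRingEnd ℂ) (ag g' L t)).re)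
      fun g' _ => hint g g'
    have e4 : (∑ g' ∈ S, fun t => L / (2 * Real.pi) * (ag g L t * (starRingEnd ℂ) (ag g' L t)).re) =
        fun t => ∑ g' ∈ S, L / (2 * Real.pi) * (ag g L t * (starRingEnd ℂ) (ag g' L t)).re := by
      funext t
      simp
    rw [e4] at this
    exact this

lemma cl_ne_one (t : ℝ) : cl t ≠ 1 := by
  intro h
  have := congrArg Complex.re h
  simp [cl] at this

lemma cl_cont : Continuous cl := by
  unfold cl
  fun_prop

lemma TT_cont (a : ℝ →₀ ℝ) : Continuous (TT a) := by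
  unfold TT
  refine continuous_const.add (Continuous.mul ?_ ?_)
  · rw [continuous_iff_continuousAt]
    intro t
    exact (differentiableAt_riemannZeta (cl_ne_one t)).continuousAt.comp cl_cont.continuousAt
  · unfold Finsupp.sum
    refine continuous_finsetSum _ fun θ _ => continuous_const.mul ?_
    exact cl_cont.const_cpow (Or.inr cl_ne)

/-- the estimate for one finite set of zeros -/
lemma oneT (h : S_FFB) (hp : S_PL) {L : ℝ} (hL : 0 < L) (a : ℝ →₀ ℝ) (ha : ∀ θ ∈ a.support, 0 < θ ∧ θ ≤ 1)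
    (S : Finset ℝ) {α β : ℝ} (hab : α < β) :
    |√(L * (1 / (2 * Real.pi) * ∫ t in α..β, ‖TT a t‖ ^ 2 / (1 / 4 + t ^ 2))) -
      √(L * (1 / (2 * Real.pi) * ∫ t in α..β, ‖Mj S L t‖ ^ 2))| ≤
    √(L * ∫ w : ℝ, ‖(De a w : ℂ) - Mo S L w‖ ^ 2 * Real.exp (-w)) := by
  obtain ⟨p1, p2⟩ := hp S L a hL ha
  set c : ℝ := L * (1 / (2 * Real.pi)) with hc
  have hcp : 0 ≤ c := by positivity
  have hc2 : √c ^ 2 = c := Real.sq_sqrt hcp
  set F : ℝ → ℂ := fun t => (√c : ℂ) * (TT a t / cl t) with hF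
  set A : ℝ → ℂ := fun t => (√c : ℂ) * Mj S L t with hA
  have cT : Continuous (fun t => TT a t / cl t) := (TT_cont a).div cl_cont cl_ne
  have mF : MemLp F 2 (volume.restrict (Ioc α β)) := (mlp_c cT _ _).const_mul _
  have mA : MemLp A 2 (volume.restrict (Ioc α β)) := (mlp_c (Mj_cont h S L) _ _).const_mul _
  have h1 := tri mF mA
  have sqc : ∀ z : ℂ, ‖(√c : ℂ) * z‖ ^ 2 = c * ‖z‖ ^ 2 := by
    intro z
    rw [norm_mul, mul_pow, Complex.norm_real, Real.norm_eq_abs, sq_abs, hc2]
  have eF : ∫ t in Ioc α β, ‖F t‖ ^ 2 = L * (1 / (2 * Real.pi) * ∫ t in α..β, ‖TT a t‖ ^ 2 / (1 / 4 + t ^ 2)) := by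
    rw [intervalIntegral.integral_of_le hab.le, ← mul_assoc, ← integral_const_mul]
    refine setIntegral_congr_fun measurableSet_Ioc fun t _ => ?_
    show ‖(√c : ℂ) * (TT a t / cl t)‖ ^ 2 = c * (‖TT a t‖ ^ 2 / (1 / 4 + t ^ 2))
    rw [sqc, norm_div, div_pow, Pool.Agent.Q286.BD.norm_cl_sq]
  have eA : ∫ t in Ioc α β, ‖A t‖ ^ 2 = L * (1 / (2 * Real.pi) * ∫ t in α..β, ‖Mj S L t‖ ^ 2) := by
    rw [intervalIntegral.integral_of_le hab.le, ← mul_assoc, ← integral_const_mul]
    refine setIntegral_congr_fun measurableSet_Ioc fun t _ => ?_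
    exact sqc _
  rw [eF, eA] at h1
  refine h1.trans (Real.sqrt_le_sqrt ?_)
  rw [p2, ← mul_assoc]
  have e4 : ∀ t, ‖F t - A t‖ ^ 2 = c * ‖TT a t / cl t - ∑ g ∈ S, FF (mz (cl g)) ((t - g) * L) / cl g‖ ^ 2 := by
    intro t
    rw [← sqc]
    congr 2
    show (√c : ℂ) * (TT a t / cl t) - (√c : ℂ) * Mj S L t = _
    rw [← mul_sub]
    rfl
  simp only [e4]
  rw [integral_const_mul]
  exact mul_le_mul_of_nonneg_left (setIntegral_le_integral p1 (ae_of_all _ fun t => by positivity)) hcp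

/-- **JOB FRQ** -/
theorem frq (h1 : S_STR) (h2 : S_PL) (h3 : S_FFB) (hs : Pool.Agent.Q286.BD.S_sum2) : S_FRQ := by
  intro hRH Lf af hF α β hab hα hβ
  have hB : Summable (fun g : Go => (mz (cl g) : ℝ) ^ 2 / (1 / 4 + (g : ℝ) ^ 2)) :=
    Pool.Agent.Q286.BD.summ_line hRH hs
  have hX : Summable (fun g : Go => yg α β g) :=
    Summable.of_nonneg_of_le (fun g => yg_nonneg α β g) (fun g => yg_le α β g) hB
  show Tendsto _ _ (𝓝 (∑' g : Go, yg α β g))
  refine lim_of ?_ (tsum_nonneg fun g => yg_nonneg α β g) ?_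
  · filter_upwards [hF.tend.eventually_ge_atTop 0] with j hj
    have : 0 ≤ ∫ t in α..β, ‖TT (af j) t‖ ^ 2 / (1 / 4 + t ^ 2) :=
      intervalIntegral.integral_nonneg hab.le fun w _ => by positivity
    positivity
  intro ε hε
  have t1 : ∀ᶠ T : Finset Go in atTop, |∑ g ∈ T, yg α β g - ∑' g : Go, yg α β g| ≤ ε := by
    have := Metric.tendsto_nhds.mp hX.hasSum ε hε
    filter_upwards [this] with T hT
    rw [Real.dist_eq] at hT
    exact hT.le
  have t2 : ∀ᶠ T : Finset Go in atTop, BB - ε < ∑ g ∈ T, (mz (cl g) : ℝ) ^ 2 / (1 / 4 + (g : ℝ) ^ 2) :=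
    hB.hasSum.eventually_const_lt (by unfold BB; linarith)
  obtain ⟨T, hT1, hT2⟩ := (t1.and t2).exists
  set S : Finset ℝ := T.map (Function.Embedding.subtype _) with hSd
  have hSz : ∀ g ∈ S, riemannZeta (cl g) = 0 := by
    intro g hg
    rw [hSd, Finset.mem_map] at hg
    obtain ⟨g', -, rfl⟩ := hg
    exact g'.2
  have hBS : BS S = ∑ g ∈ T, (mz (cl g) : ℝ) ^ 2 / (1 / 4 + (g : ℝ) ^ 2) := by
    unfold BS
    rw [hSd, Finset.sum_map]
    rfl
  have hXS : ∑ g ∈ S, yg α β g = ∑ g ∈ T, yg α β g := by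
    rw [hSd, Finset.sum_map]
    rfl
  refine ⟨fun j => Lf j * (1 / (2 * Real.pi) * ∫ t in α..β, ‖Mj S (Lf j) t‖ ^ 2),
    ∑ g ∈ S, yg α β g, Finset.sum_nonneg fun g _ => yg_nonneg α β g, ?_, ?_, ?_⟩
  · exact (model h3 hab S (fun h => hα (hSz _ h)) (fun h => hβ (hSz _ h))).comp hF.tend
  · rw [hXS]; exact hT1
  · have r1 := rem h1 S hSz hF (η := ε) (by rw [hBS]; linarith)
    filter_upwards [r1] with j j1
    obtain ⟨j1, j3, j4⟩ := j1
    refine (oneT h3 h2 (by linarith) (af j) (fun θ hθ => ?_) S hab).trans (Real.sqrt_le_sqrt j4)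
    have := hF.supp j θ hθ
    exact ⟨lt_of_lt_of_le (Real.exp_pos _) this.1, this.2⟩

end Pool.Agent.Q123.OE
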