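import Pool.Agent.Q123.OE.Tri

set_option autoImplicit false

/-!
# Project OE, job QF: the quadratic forms in the error and the prime error
-/

namespace Pool.Agent.Q123.OE

open Complex MeasureTheory Filter Topology Set
open Pool.Agent.Q286.BD (cl mz difR JR)
open Pool.Agent.Q260.GM (ph)
open Pool.Agent.Q260.OE

/-- `e^{-w/2}` -/
noncomputable def eh (w : ℝ) : ℂ := ((Real.exp (-(w / 2)) : ℝ) : ℂ)

lemma eh_norm (w : ℝ) : ‖eh w‖ ^ 2 = Real.exp (-w) := by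
  unfold eh
  rw [Complex.norm_real, Real.norm_eq_abs, sq_abs, sq, ← Real.exp_add]
  congr 1; ring

lemma eh_le {w : ℝ} (h : 0 ≤ w) : ‖eh w‖ ≤ 1 := by
  unfold eh
  rw [Complex.norm_real, Real.norm_eq_abs, abs_of_pos (Real.exp_pos _)]
  exact Real.exp_le_one_iff.mpr (by linarith)

lemma eh_meas : Measurable eh := by
  unfold eh
  fun_prop

lemma eh_cont : Continuous eh := by
  unfold eh
  fun_prop

lemma sq_eh (z : ℂ) (w : ℝ) : ‖z * eh w‖ ^ 2 = ‖z‖ ^ 2 * Real.exp (-w) := by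
  rw [norm_mul, mul_pow, eh_norm]

lemma D_mlp (a : ℝ →₀ ℝ) {s t : ℝ} (hs : 0 ≤ s) :
    MemLp (fun w => (De a w : ℂ) * eh w) 2 (volume.restrict (Ioc s t)) := by
  refine mlp (B := 1 + a.sum fun _ c => |c|) ?_ ?_
  · exact (Complex.measurable_ofReal.comp (De_meas a)).mul eh_meas
  · intro w hw
    rw [norm_mul, Complex.norm_real]
    have h1 := De_bound a w
    have h2 := eh_le (hs.trans hw.1.le)
    have h3 := norm_nonneg (eh w)
    have h4 : 0 ≤ ‖De a w‖ := norm_nonneg _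
    rw [Real.norm_eq_abs] at h4 ⊢
    nlinarith

lemma ph_mlp {s t : ℝ} (hs : 0 ≤ s) :
    MemLp (fun w => (ph w : ℂ) * eh w) 2 (volume.restrict (Ioc s t)) := by
  refine mlp (B := Chebyshev.psi (Real.exp t) + Real.exp t) ?_ ?_
  · exact (Complex.measurable_ofReal.comp ph_meas).mul eh_meas
  · intro w hw
    rw [norm_mul, Complex.norm_real]
    have h1 := ph_bound hw.2
    have h2 := eh_le (hs.trans hw.1.le)
    have h3 := norm_nonneg (eh w)
    have h4 : 0 ≤ ‖ph w‖ := norm_nonneg _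
    rw [Real.norm_eq_abs] at h4 ⊢
    nlinarith

/-- the polynomial `α p_m + β m` -/
noncomputable def qp (α β g : ℝ) : Polynomial ℝ :=
  Polynomial.C α * pm (mz (cl g)) + Polynomial.C (β * (mz (cl g) : ℝ))

lemma qp_eval (α β g x : ℝ) : (qp α β g).eval x = α * (pm (mz (cl g))).eval x + β * (mz (cl g) : ℝ) := by
  simp [qp]

/-- the trigonometric sum -/
noncomputable def Tr (S : Finset ℝ) (α β L w : ℝ) : ℂ :=
  ∑ g ∈ S, (((qp α β g).eval (w / L) : ℝ) : ℂ) * cexp (w * cl g) / cl g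

lemma Tr_cont (S : Finset ℝ) (α β L : ℝ) : Continuous (Tr S α β L) := by
  unfold Tr
  refine continuous_finsetSum _ fun g _ => ?_
  refine Continuous.div_const (Continuous.mul ?_ (by fun_prop)) _
  exact Complex.continuous_ofReal.comp ((qp α β g).continuous.comp (by fun_prop))

/-- the model and the sum of the zeros give the trigonometric sum -/
lemma Tr_eq (S : Finset ℝ) (α β : ℝ) {L w : ℝ} (hL : 0 < L) (h0 : 0 ≤ w) (h1 : w ≤ L) :
    Tr S α β L w = (α : ℂ) * L * Mo S L w + β * ZS S w := by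
  unfold Tr Mo ZS
  rw [if_pos ⟨h0, h1⟩]
  have hL' : (L : ℂ) ≠ 0 := by exact_mod_cast hL.ne'
  have e : (α : ℂ) * L * (1 / (L : ℂ) * ∑ g ∈ S, (((pm (mz (cl g))).eval (w / L) : ℝ) : ℂ) * cexp (w * cl g) / cl g) =
      α * ∑ g ∈ S, (((pm (mz (cl g))).eval (w / L) : ℝ) : ℂ) * cexp (w * cl g) / cl g := by
    field_simp
  rw [e, Finset.mul_sum, Finset.mul_sum, ← Finset.sum_add_distrib]
  refine Finset.sum_congr rfl fun g _ => ?_
  rw [qp_eval]
  push_cast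
  ring

/-- the estimate for one finite set of zeros -/
lemma one {L : ℝ} (hL : 0 < L) (a : ℝ →₀ ℝ) (S : Finset ℝ) (α β : ℝ) {u v : ℝ} (hu : 0 ≤ u) (huv : u ≤ v) (hv : v ≤ 1)
    (hi : Integrable (fun w : ℝ => ‖(De a w : ℂ) - Mo S L w‖ ^ 2 * Real.exp (-w))) :
    |√(L * ∫ w in (u * L)..(v * L), (α * De a w - β * ph w / L) ^ 2 * Real.exp (-w)) -
      √(1 / L * ∫ w in (u * L)..(v * L), ‖Tr S α β L w‖ ^ 2 * Real.exp (-w))| ≤
    √(2 * α ^ 2 * (L * ∫ w : ℝ, ‖(De a w : ℂ) - Mo S L w‖ ^ 2 * Real.exp (-w)) +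
      2 * β ^ 2 * (1 / L * ∫ w in (0 : ℝ)..L, ‖(ph w : ℂ) + ZS S w‖ ^ 2 * Real.exp (-w))) := by
  have hsL : 0 < √L := Real.sqrt_pos.mpr hL
  have hsL2 : √L ^ 2 = L := Real.sq_sqrt hL.le
  have huL : 0 ≤ u * L := by positivity
  have huvL : u * L ≤ v * L := by gcongr
  have hvL : v * L ≤ L := by nlinarith
  set I : Set ℝ := Ioc (u * L) (v * L) with hI
  -- the functions
  set F : ℝ → ℂ := fun w => ((√L * α : ℝ) : ℂ) * ((De a w : ℂ) * eh w) - ((β / √L : ℝ) : ℂ) * ((ph w : ℂ) * eh w) with hF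
  set A : ℝ → ℂ := fun w => ((1 / √L : ℝ) : ℂ) * (Tr S α β L w * eh w) with hA
  have mF : MemLp F 2 (volume.restrict I) :=
    ((D_mlp a huL).const_mul _).sub ((ph_mlp huL).const_mul _)
  have mA : MemLp A 2 (volume.restrict I) :=
    (mlp_c ((Tr_cont S α β L).mul eh_cont) _ _).const_mul _
  have h1 := tri mF mA
  have eF : ∫ w in I, ‖F w‖ ^ 2 = L * ∫ w in (u * L)..(v * L), (α * De a w - β * ph w / L) ^ 2 * Real.exp (-w) := by
    rw [intervalIntegral.integral_of_le huvL, ← integral_const_mul]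
    refine setIntegral_congr_fun measurableSet_Ioc fun w _ => ?_
    have e1 : F w = ((√L * (α * De a w - β * ph w / L) : ℝ) : ℂ) * eh w := by
      rw [hF]
      push_cast
      have hc : ((√L : ℝ) : ℂ) ≠ 0 := by exact_mod_cast hsL.ne'
      have hc2 : ((√L : ℝ) : ℂ) ^ 2 = L := by exact_mod_cast hsL2
      rw [← hc2]
      field_simp
    show ‖F w‖ ^ 2 = L * ((α * De a w - β * ph w / L) ^ 2 * Real.exp (-w))
    rw [e1, sq_eh, Complex.norm_real, Real.norm_eq_abs, sq_abs, mul_pow, hsL2]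
    ring
  have eA : ∫ w in I, ‖A w‖ ^ 2 = 1 / L * ∫ w in (u * L)..(v * L), ‖Tr S α β L w‖ ^ 2 * Real.exp (-w) := by
    rw [intervalIntegral.integral_of_le huvL, ← integral_const_mul]
    refine setIntegral_congr_fun measurableSet_Ioc fun w _ => ?_
    show ‖A w‖ ^ 2 = 1 / L * (‖Tr S α β L w‖ ^ 2 * Real.exp (-w))
    rw [hA]
    show ‖((1 / √L : ℝ) : ℂ) * (Tr S α β L w * eh w)‖ ^ 2 = _
    rw [norm_mul, mul_pow, sq_eh, Complex.norm_real, Real.norm_eq_abs, sq_abs, div_pow, hsL2, one_pow]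
  rw [eF, eA] at h1
  refine h1.trans (Real.sqrt_le_sqrt ?_)
  -- the remainder
  have hG : MemLp (fun w => ((ph w : ℂ) + ZS S w) * eh w) 2 (volume.restrict (Ioc 0 L)) := by
    have := (ph_mlp (s := 0) (t := L) le_rfl).add (mlp_c ((ZS_cont S).mul eh_cont) 0 L)
    refine this.congr_norm ?_ ?_
    · exact (((Complex.measurable_ofReal.comp ph_meas).add (ZS_cont S).measurable).mul eh_meas).aestronglyMeasurable
    · refine ae_of_all _ fun w => ?_
      simp only [Pi.add_apply, Pi.mul_apply]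
      congr 1
      ring
  have hGi : IntegrableOn (fun w => ‖(ph w : ℂ) + ZS S w‖ ^ 2 * Real.exp (-w)) (Ioc 0 L) := by
    refine (isq hG).congr (ae_of_all _ fun w => ?_)
    exact sq_eh _ _
  have hsub : I ⊆ Ioc 0 L := Ioc_subset_Ioc huL hvL
  have hpt : ∀ w ∈ I, ‖F w - A w‖ ^ 2 ≤ 2 * α ^ 2 * L * (‖(De a w : ℂ) - Mo S L w‖ ^ 2 * Real.exp (-w)) +
      2 * β ^ 2 * (1 / L) * (‖(ph w : ℂ) + ZS S w‖ ^ 2 * Real.exp (-w)) := by
    intro w hw
    have hw' := hsub hw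
    have e2 : F w - A w = (((√L * α : ℝ) : ℂ) * ((De a w : ℂ) - Mo S L w) -
        ((β / √L : ℝ) : ℂ) * ((ph w : ℂ) + ZS S w)) * eh w := by
      show ((√L * α : ℝ) : ℂ) * ((De a w : ℂ) * eh w) - ((β / √L : ℝ) : ℂ) * ((ph w : ℂ) * eh w) -
        ((1 / √L : ℝ) : ℂ) * (Tr S α β L w * eh w) = _
      rw [Tr_eq S α β hL hw'.1.le hw'.2]
      push_cast
      have hc : ((√L : ℝ) : ℂ) ≠ 0 := by exact_mod_cast hsL.ne'
      have hc2 : ((√L : ℝ) : ℂ) ^ 2 = L := by exact_mod_cast hsL2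
      rw [← hc2]
      field_simp
      ring
    rw [e2, sq_eh]
    have e3 : ‖((√L * α : ℝ) : ℂ) * ((De a w : ℂ) - Mo S L w) - ((β / √L : ℝ) : ℂ) * ((ph w : ℂ) + ZS S w)‖ ^ 2 ≤
        2 * (α ^ 2 * L * ‖(De a w : ℂ) - Mo S L w‖ ^ 2) + 2 * (β ^ 2 * (1 / L) * ‖(ph w : ℂ) + ZS S w‖ ^ 2) := by
      have n1 : ‖((√L * α : ℝ) : ℂ) * ((De a w : ℂ) - Mo S L w)‖ ^ 2 = α ^ 2 * L * ‖(De a w : ℂ) - Mo S L w‖ ^ 2 := by
        rw [norm_mul, mul_pow, Complex.norm_real, Real.norm_eq_abs, sq_abs, mul_pow, hsL2]; ring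
      have n2 : ‖((β / √L : ℝ) : ℂ) * ((ph w : ℂ) + ZS S w)‖ ^ 2 = β ^ 2 * (1 / L) * ‖(ph w : ℂ) + ZS S w‖ ^ 2 := by
        rw [norm_mul, mul_pow, Complex.norm_real, Real.norm_eq_abs, sq_abs, div_pow, hsL2]; ring
      rw [← n1, ← n2]
      have t := norm_sub_le (((√L * α : ℝ) : ℂ) * ((De a w : ℂ) - Mo S L w)) (((β / √L : ℝ) : ℂ) * ((ph w : ℂ) + ZS S w))
      have t0 := norm_nonneg (((√L * α : ℝ) : ℂ) * ((De a w : ℂ) - Mo S L w) - ((β / √L : ℝ) : ℂ) * ((ph w : ℂ) + ZS S w))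
      nlinarith [sq_nonneg (‖((√L * α : ℝ) : ℂ) * ((De a w : ℂ) - Mo S L w)‖ - ‖((β / √L : ℝ) : ℂ) * ((ph w : ℂ) + ZS S w)‖)]
    calc _ ≤ (2 * (α ^ 2 * L * ‖(De a w : ℂ) - Mo S L w‖ ^ 2) + 2 * (β ^ 2 * (1 / L) * ‖(ph w : ℂ) + ZS S w‖ ^ 2)) *
          Real.exp (-w) := mul_le_mul_of_nonneg_right e3 (Real.exp_pos _).le
      _ = _ := by ring
  have hi1 : IntegrableOn (fun w => 2 * α ^ 2 * L * (‖(De a w : ℂ) - Mo S L w‖ ^ 2 * Real.exp (-w))) I :=
    (hi.integrableOn).const_mul _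
  have hi2 : IntegrableOn (fun w => 2 * β ^ 2 * (1 / L) * (‖(ph w : ℂ) + ZS S w‖ ^ 2 * Real.exp (-w))) I :=
    (hGi.mono_set hsub).const_mul _
  have hmono := setIntegral_mono_on (isq (mF.sub mA)) (hi1.add hi2) measurableSet_Ioc hpt
  refine hmono.trans ?_
  simp only [Pi.add_apply]
  rw [integral_add hi1 hi2, integral_const_mul, integral_const_mul]
  have k1 : ∫ w in I, ‖(De a w : ℂ) - Mo S L w‖ ^ 2 * Real.exp (-w) ≤
      ∫ w : ℝ, ‖(De a w : ℂ) - Mo S L w‖ ^ 2 * Real.exp (-w) :=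
    setIntegral_le_integral hi (ae_of_all _ fun w => by positivity)
  have k2 : ∫ w in I, ‖(ph w : ℂ) + ZS S w‖ ^ 2 * Real.exp (-w) ≤
      ∫ w in (0 : ℝ)..L, ‖(ph w : ℂ) + ZS S w‖ ^ 2 * Real.exp (-w) := by
    rw [intervalIntegral.integral_of_le hL.le]
    exact setIntegral_mono_set hGi (ae_of_all _ fun w => by positivity) hsub.eventuallyLE
  have k3 : 2 * α ^ 2 * L * ∫ w in I, ‖(De a w : ℂ) - Mo S L w‖ ^ 2 * Real.exp (-w) ≤
      2 * α ^ 2 * L * ∫ w : ℝ, ‖(De a w : ℂ) - Mo S L w‖ ^ 2 * Real.exp (-w) :=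
    mul_le_mul_of_nonneg_left k1 (by positivity)
  have k4 : 2 * β ^ 2 * (1 / L) * ∫ w in I, ‖(ph w : ℂ) + ZS S w‖ ^ 2 * Real.exp (-w) ≤
      2 * β ^ 2 * (1 / L) * ∫ w in (0 : ℝ)..L, ‖(ph w : ℂ) + ZS S w‖ ^ 2 * Real.exp (-w) :=
    mul_le_mul_of_nonneg_left k2 (by positivity)
  linarith

/-- the limit belonging to one zero -/
noncomputable def xg (α β u v g : ℝ) : ℝ :=
  (∫ x in u..v, (α * (pm (mz (cl g))).eval x + β * (mz (cl g) : ℝ)) ^ 2) / (1 / 4 + g ^ 2)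

lemma xg_nonneg (α β : ℝ) {u v : ℝ} (huv : u ≤ v) (g : ℝ) : 0 ≤ xg α β u v g :=
  div_nonneg (intervalIntegral.integral_nonneg huv fun _ _ => sq_nonneg _) (by positivity)

lemma xg_le (h : S_LEG) (α β : ℝ) {u v : ℝ} (hu : 0 ≤ u) (huv : u ≤ v) (hv : v ≤ 1) (g : ℝ) :
    xg α β u v g ≤ 2 * (α ^ 2 + β ^ 2) * ((mz (cl g) : ℝ) ^ 2 / (1 / 4 + g ^ 2)) := by
  unfold xg
  rw [← mul_div_assoc]
  refine div_le_div_of_nonneg_right ?_ (by positivity)
  set m := mz (cl g)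
  have hc : Continuous (fun x : ℝ => (pm m).eval x) := (pm m).continuous
  have i1 : ∫ x in u..v, (α * (pm m).eval x + β * (m : ℝ)) ^ 2 ≤ ∫ x in (0 : ℝ)..1, (α * (pm m).eval x + β * (m : ℝ)) ^ 2 := by
    refine intervalIntegral.integral_mono_interval hu huv hv (ae_of_all _ fun x => sq_nonneg _) ?_
    exact (Continuous.intervalIntegrable (by fun_prop) _ _)
  have i2 : ∫ x in (0 : ℝ)..1, (α * (pm m).eval x + β * (m : ℝ)) ^ 2 ≤
      ∫ x in (0 : ℝ)..1, (2 * α ^ 2 * (pm m).eval x ^ 2 + 2 * β ^ 2 * (m : ℝ) ^ 2) := by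
    refine intervalIntegral.integral_mono_on zero_le_one (Continuous.intervalIntegrable (by fun_prop) _ _)
      (Continuous.intervalIntegrable (by fun_prop) _ _) fun x _ => ?_
    nlinarith [sq_nonneg (α * (pm m).eval x - β * (m : ℝ))]
  have i3 : ∫ x in (0 : ℝ)..1, (2 * α ^ 2 * (pm m).eval x ^ 2 + 2 * β ^ 2 * (m : ℝ) ^ 2) =
      2 * (α ^ 2 + β ^ 2) * (m : ℝ) ^ 2 := by
    rw [intervalIntegral.integral_add (Continuous.intervalIntegrable (by fun_prop) _ _)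
      (Continuous.intervalIntegrable (by fun_prop) _ _), intervalIntegral.integral_const_mul, (h m).2.2.2.1]
    simp
    ring
  linarith

lemma pow_lim : Tendsto (fun L : ℝ => L / L ^ (3 / 2 : ℝ)) atTop (𝓝 0) := by
  have h := tendsto_rpow_neg_atTop (y := 1 / 2) (by norm_num)
  refine h.congr' ?_
  filter_upwards [eventually_gt_atTop 0] with L hL
  rw [eq_div_iff (by positivity), ← Real.rpow_add hL]
  norm_num

/-- the error of the model, times `L` -/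
lemma rem (h : S_STR) (S : Finset ℝ) (hS : ∀ g ∈ S, riemannZeta (cl g) = 0) {Lf : ℕ → ℝ} {af : ℕ → (ℝ →₀ ℝ)}
    (hF : Fam Lf af) {η : ℝ} (hη : BB - BS S < η) : ∀ᶠ j in atTop, 1 ≤ Lf j ∧
    Integrable (fun w : ℝ => ‖(De (af j) w : ℂ) - Mo S (Lf j) w‖ ^ 2 * Real.exp (-w)) ∧
    Lf j * ∫ w : ℝ, ‖(De (af j) w : ℂ) - Mo S (Lf j) w‖ ^ 2 * Real.exp (-w) ≤ η := by
  have hBB : 0 ≤ BB := tsum_nonneg fun g => by positivity
  obtain ⟨C, hC, hb⟩ := h S hS (BB + 1) (by linarith)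
  have e1 : ∀ᶠ j in atTop, 1 ≤ Lf j := hF.tend.eventually_ge_atTop 1
  have e2 : ∀ᶠ j in atTop, Lf j * JR (af j) ≤ BB + 1 := hF.opt.eventually_le_const (by linarith)
  have e3 : Tendsto (fun j => Lf j * JR (af j) - BS S + C * (Lf j / Lf j ^ (3 / 2 : ℝ))) atTop (𝓝 (BB - BS S + C * 0)) :=
    (hF.opt.sub_const _).add ((pow_lim.comp hF.tend).const_mul C)
  have e4 := e3.eventually_le_const (u := η) (by linarith)
  filter_upwards [e1, e2, e4] with j j1 j2 j4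
  have hpos : 0 < Lf j := by linarith
  obtain ⟨i1, i2⟩ := hb (Lf j) j1 (af j) (hF.supp j) (by rw [le_div_iff₀ hpos]; linarith)
  refine ⟨j1, i1, ?_⟩
  have i3 := mul_le_mul_of_nonneg_left i2 hpos.le
  refine i3.trans (le_trans (le_of_eq ?_) j4)
  field_simp

/-- **JOB QF** -/
theorem qf (h1 : S_STR) (h2 : S_MOD) (h3 : S_CR4) (h5 : S_LEG) (hs : Pool.Agent.Q286.BD.S_sum2) : S_QF := by
  intro hRH Lf af hF α β u v hu huv hv
  have hB : Summable (fun g : Go => (mz (cl g) : ℝ) ^ 2 / (1 / 4 + (g : ℝ) ^ 2)) :=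
    Pool.Agent.Q286.BD.summ_line hRH hs
  have hX : Summable (fun g : Go => xg α β u v g) :=
    Summable.of_nonneg_of_le (fun g => xg_nonneg α β huv g) (fun g => xg_le h5 α β hu huv hv g)
      (hB.mul_left _)
  refine ⟨hX, ?_⟩
  show Tendsto _ _ (𝓝 (∑' g : Go, xg α β u v g))
  refine lim_of ?_ (tsum_nonneg fun g => xg_nonneg α β huv g) ?_
  · filter_upwards [hF.tend.eventually_ge_atTop 0] with j hj
    refine mul_nonneg hj (intervalIntegral.integral_nonneg (by gcongr) fun w _ => by positivity)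
  intro ε hε
  set ε1 : ℝ := ε / (2 * α ^ 2 + 2 * β ^ 2 + 1) with hε1
  have hε1p : 0 < ε1 := by positivity
  have hεe : 2 * α ^ 2 * ε1 + 2 * β ^ 2 * ε1 ≤ ε := by
    have : (2 * α ^ 2 + 2 * β ^ 2 + 1) * ε1 = ε := by rw [hε1]; field_simp
    nlinarith
  obtain ⟨S0, hS0, hCR⟩ := h3 hRH ε1 hε1p
  -- choice of the finite set
  have t1 : ∀ᶠ T : Finset Go in atTop, |∑ g ∈ T, xg α β u v g - ∑' g : Go, xg α β u v g| ≤ ε := by
    have := Metric.tendsto_nhds.mp hX.hasSum ε hε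
    filter_upwards [this] with T hT
    rw [Real.dist_eq] at hT
    exact hT.le
  have t2 : ∀ᶠ T : Finset Go in atTop, BB - ε1 < ∑ g ∈ T, (mz (cl g) : ℝ) ^ 2 / (1 / 4 + (g : ℝ) ^ 2) :=
    hB.hasSum.eventually_const_lt (by unfold BB; linarith)
  have t3 : ∀ᶠ T : Finset Go in atTop, S0.subtype (· ∈ Go) ≤ T := eventually_ge_atTop _
  obtain ⟨T, ⟨hT1, hT2⟩, hT3⟩ := ((t1.and t2).and t3).exists
  set S : Finset ℝ := T.map (Function.Embedding.subtype _) with hSd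
  have hSz : ∀ g ∈ S, riemannZeta (cl g) = 0 := by
    intro g hg
    rw [hSd, Finset.mem_map] at hg
    obtain ⟨g', -, rfl⟩ := hg
    exact g'.2
  have hSS : S0 ⊆ S := by
    intro g hg
    rw [hSd, Finset.mem_map]
    exact ⟨⟨g, hS0 g hg⟩, hT3 (by rw [Finset.mem_subtype]; exact hg), rfl⟩
  have hBS : BS S = ∑ g ∈ T, (mz (cl g) : ℝ) ^ 2 / (1 / 4 + (g : ℝ) ^ 2) := by
    unfold BS
    rw [hSd, Finset.sum_map]
    rfl
  have hXS : ∑ g ∈ S, xg α β u v g = ∑ g ∈ T, xg α β u v g := by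
    rw [hSd, Finset.sum_map]
    rfl
  refine ⟨fun j => 1 / Lf j * ∫ w in (u * Lf j)..(v * Lf j), ‖Tr S α β (Lf j) w‖ ^ 2 * Real.exp (-w),
    ∑ g ∈ S, xg α β u v g, Finset.sum_nonneg fun g _ => xg_nonneg α β huv g, ?_, ?_, ?_⟩
  · have := (h2 S (qp α β) u v huv).comp hF.tend
    have e : ∑ g ∈ S, (∫ x in u..v, (qp α β g).eval x ^ 2) / (1 / 4 + g ^ 2) = ∑ g ∈ S, xg α β u v g := by
      refine Finset.sum_congr rfl fun g _ => ?_
      unfold xg
      simp only [qp_eval]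
    rw [e] at this
    exact this
  · rw [hXS]; exact hT1
  · have r1 := rem h1 S hSz hF (η := ε1) (by rw [hBS]; linarith)
    have r2 := hF.tend.eventually (hCR S hSS hSz)
    filter_upwards [r1, r2] with j j1 j2
    obtain ⟨j1, j3, j4⟩ := j1
    refine (one (by linarith) (af j) S α β hu huv hv j3).trans (Real.sqrt_le_sqrt ?_)
    have k1 := mul_le_mul_of_nonneg_left j4 (show (0 : ℝ) ≤ 2 * α ^ 2 by positivity)
    have k2 := mul_le_mul_of_nonneg_left j2 (show (0 : ℝ) ≤ 2 * β ^ 2 by positivity)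
    linarith

end Pool.Agent.Q123.OE
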