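import Pool.Agent.Q260.OE.Stm
import Pool.Agent.Q286.BD.Fin

set_option autoImplicit false

/-!
# Project OE: two tools (triangle inequality in L², limits through approximations) and facts about the functions
-/

namespace Pool.Agent.Q123.OE

open Complex MeasureTheory Filter Topology Set
open Pool.Agent.Q286.BD (cl mz difR JR)
open Pool.Agent.Q260.GM (ph)
open Pool.Agent.Q260.OE

/-- the norm in `L²` -/
lemma nrm {α : Type*} [MeasurableSpace α] {μ : Measure α} {h : α → ℂ} (hh : MemLp h 2 μ) :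
    √(∫ x, ‖h x‖ ^ 2 ∂μ) = ‖hh.toLp h‖ := by
  rw [Lp.norm_toLp, hh.eLpNorm_eq_integral_rpow_norm (by norm_num) (by norm_num)]
  rw [ENNReal.toReal_ofReal (by positivity)]
  simp only [ENNReal.toReal_ofNat, Real.rpow_two]
  rw [Real.sqrt_eq_rpow]
  norm_num

/-- triangle inequality -/
lemma tri {α : Type*} [MeasurableSpace α] {μ : Measure α} {f g : α → ℂ} (hf : MemLp f 2 μ) (hg : MemLp g 2 μ) :
    |√(∫ x, ‖f x‖ ^ 2 ∂μ) - √(∫ x, ‖g x‖ ^ 2 ∂μ)| ≤ √(∫ x, ‖f x - g x‖ ^ 2 ∂μ) := by
  have h := nrm (hf.sub hg)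
  simp only [Pi.sub_apply] at h
  rw [nrm hf, nrm hg, h, MemLp.toLp_sub]
  exact abs_norm_sub_norm_le _ _

/-- limits through approximations -/
lemma lim_of {val : ℕ → ℝ} (hv : ∀ᶠ j in atTop, 0 ≤ val j) {X : ℝ} (hX : 0 ≤ X)
    (h : ∀ ε : ℝ, 0 < ε → ∃ (m : ℕ → ℝ) (x : ℝ), 0 ≤ x ∧ Tendsto m atTop (𝓝 x) ∧ |x - X| ≤ ε ∧
      ∀ᶠ j in atTop, |√(val j) - √(m j)| ≤ √ε) : Tendsto val atTop (𝓝 X) := by
  have h1 : Tendsto (fun j => √(val j)) atTop (𝓝 √X) := by
    rw [Metric.tendsto_atTop']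
    intro η hη
    obtain ⟨m, x, hx, hm, hxX, hj⟩ := h ((η / 4) ^ 2) (by positivity)
    have h2 : Tendsto (fun j => √(m j)) atTop (𝓝 √x) := (Real.continuous_sqrt.tendsto x).comp hm
    have h3 : ∀ᶠ j in atTop, |√(m j) - √x| < η / 4 := by
      have := Metric.tendsto_nhds.mp h2 (η / 4) (by positivity)
      simpa [Real.dist_eq] using this
    have h4 : |√x - √X| ≤ η / 4 := by
      have e1 : |√x - √X| ≤ √|x - X| := by
        rw [← Real.sqrt_sq_eq_abs, ← Real.sqrt_sq_eq_abs]
        apply Real.sqrt_le_sqrt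
        rw [Real.sqrt_sq_eq_abs]
        have hs1 := Real.sq_sqrt hx
        have hs2 := Real.sq_sqrt hX
        have n1 := Real.sqrt_nonneg x
        have n2 := Real.sqrt_nonneg X
        have : |x - X| = |√x - √X| * |√x + √X| := by
          rw [← abs_mul]; congr 1; nlinarith
        rw [this, ← sq_abs, sq, abs_of_nonneg (add_nonneg n1 n2)]
        refine mul_le_mul_of_nonneg_left ?_ (abs_nonneg _)
        rw [abs_le]; constructor <;> linarith
      have e2 : √|x - X| ≤ √((η / 4) ^ 2) := Real.sqrt_le_sqrt hxX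
      rw [Real.sqrt_sq (by positivity)] at e2
      linarith
    obtain ⟨N, hN⟩ := eventually_atTop.mp (hj.and h3)
    refine ⟨N, fun j hj => ?_⟩
    obtain ⟨a1, a2⟩ := hN j hj.le
    rw [Real.sqrt_sq (by positivity)] at a1
    rw [Real.dist_eq]
    have t1 := abs_sub_le (√(val j)) (√(m j)) √X
    have t2 := abs_sub_le (√(m j)) (√x) √X
    linarith
  have h5 := h1.pow 2
  rw [Real.sq_sqrt hX] at h5
  refine h5.congr' ?_
  filter_upwards [hv] with j hj
  exact Real.sq_sqrt hj

/-- bounded measurable functions on an interval -/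
lemma mlp {f : ℝ → ℂ} (hm : Measurable f) {a b B : ℝ} (hB : ∀ w ∈ Ioc a b, ‖f w‖ ≤ B) :
    MemLp f 2 (volume.restrict (Ioc a b)) := by
  refine MemLp.of_bound hm.aestronglyMeasurable B ?_
  rw [ae_restrict_iff' measurableSet_Ioc]
  exact ae_of_all _ hB

lemma mlp_c {f : ℝ → ℂ} (hc : Continuous f) (a b : ℝ) :
    MemLp f 2 (volume.restrict (Ioc a b)) := by
  obtain ⟨B, hB⟩ := isCompact_Icc.exists_bound_of_continuousOn (s := Icc a b) hc.continuousOn
  exact mlp hc.measurable fun w hw => hB w (Ioc_subset_Icc_self hw)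

lemma isq {f : ℝ → ℂ} {μ : Measure ℝ} (h : MemLp f 2 μ) : Integrable (fun w => ‖f w‖ ^ 2) μ := by
  have := h.integrable_norm_pow (by norm_num)
  simpa using this

lemma ph_bound {w B : ℝ} (h : w ≤ B) : |ph w| ≤ Chebyshev.psi (Real.exp B) + Real.exp B := by
  unfold ph
  have h1 : Real.exp w ≤ Real.exp B := Real.exp_le_exp.mpr h
  have h2 : Chebyshev.psi (Real.exp w) ≤ Chebyshev.psi (Real.exp B) := Chebyshev.psi_mono h1
  have h3 : 0 ≤ Chebyshev.psi (Real.exp w) := Chebyshev.psi_nonneg _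
  have h4 := Real.exp_pos w
  rw [abs_le]; constructor <;> linarith

lemma ph_meas : Measurable ph := by
  unfold ph
  refine Measurable.sub ?_ Real.measurable_exp
  exact (Chebyshev.psi_mono.measurable).comp Real.measurable_exp

lemma De_meas (a : ℝ →₀ ℝ) : Measurable (De a) := by
  unfold De difR
  refine Measurable.sub ?_ ?_
  · refine Measurable.ite ?_ measurable_const measurable_const
    exact measurableSet_le (by fun_prop) measurable_const
  · unfold Finsupp.sum
    refine Finset.measurable_sum _ fun θ _ => ?_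
    refine measurable_const.mul (measurable_fract.comp ?_)
    fun_prop

lemma De_bound (a : ℝ →₀ ℝ) (w : ℝ) : |De a w| ≤ 1 + a.sum fun _ c => |c| := by
  unfold De difR
  have h1 : |(if Real.exp (-w) ≤ 1 then 1 else 0 : ℝ)| ≤ 1 := by split_ifs <;> simp
  have h2 : |a.sum fun θ c => c * Int.fract (θ / Real.exp (-w))| ≤ a.sum fun _ c => |c| := by
    unfold Finsupp.sum
    refine (Finset.abs_sum_le_sum_abs _ _).trans (Finset.sum_le_sum fun θ _ => ?_)
    have e := abs_of_nonneg (Int.fract_nonneg (θ / Real.exp (-w)))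
    rw [abs_mul, e]
    exact mul_le_of_le_one_right (abs_nonneg _) (Int.fract_lt_one _).le
  exact (abs_sub _ _).trans (add_le_add h1 h2)

lemma ZS_cont (S : Finset ℝ) : Continuous (ZS S) := by
  unfold ZS
  fun_prop

lemma cl_ne (g : ℝ) : cl g ≠ 0 := by
  intro h
  have := congrArg Complex.re h
  simp [cl] at this

end Pool.Agent.Q123.OE
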